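import Mathlib.SetTheory.Ordinal.Arithmetic
import Mathlib.CategoryTheory.Category.Init

set_option autoImplicit false

universe u

namespace Pool.Agent.MP_77bbd4_lc

/-- `D` is downward closed and every condition has an extension in `D`. -/
def IsOpenDense {P : Type u} [PartialOrder P] (D : Set P) : Prop :=
  IsLowerSet D ∧ ∀ p : P, ∃ q ∈ D, q ≤ p

/-- `P` is strongly `<κ`-distributive: for every `κ`-sequence of open dense sets and every `p`
there is a descending `κ`-sequence below `p` whose `α`-th term lies in the `α`-th set. -/
def StronglyDistributive (P : Type u) [PartialOrder P] (κ : Cardinal.{u}) : Prop :=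
  ∀ D : Ordinal.{u} → Set P, (∀ α < κ.ord, IsOpenDense (D α)) → ∀ p : P,
    ∃ s : Ordinal.{u} → P, s 0 ≤ p ∧ (∀ α < κ.ord, s α ∈ D α) ∧
      ∀ β < κ.ord, ∀ α < β, s β ≤ s α

/-- `q` is a legal move at stage `α` after the moves `s β`, `β < α`: the first move is the
largest element and every later move is a lower bound of all earlier moves. -/
def LegalMove {P : Type u} [PartialOrder P] [OrderTop P] (s : Ordinal.{u} → P)
    (α : Ordinal.{u}) (q : P) : Prop :=
  (α = 0 → q = ⊤) ∧ ∀ β < α, q ≤ s β

/-- COM has a winning strategy in the completeness game `G(P, δ)`: a rule `σ`, depending only on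
the earlier moves, such that at every even stage `α < δ` (zero and limits are even), if all
earlier moves were legal and COM followed `σ` at all earlier even stages, then `σ` gives a
legal move. -/
def ComWins (P : Type u) [PartialOrder P] [OrderTop P] (δ : Ordinal.{u}) : Prop :=
  ∃ σ : (α : Ordinal.{u}) → (Set.Iio α → P) → P,
    ∀ α < δ, α % 2 = 0 → ∀ s : Ordinal.{u} → P,
      (∀ β < α, LegalMove s β (s β)) →
      (∀ β < α, β % 2 = 0 → s β = σ β (fun γ => s γ)) →
      LegalMove s α (σ α (fun γ => s γ))

end Pool.Agent.MP_77bbd4_lc
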