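import Mathlib.SetTheory.Cardinal.Pigeonhole
import Pool.Agent.MP_77bbd4_lc.Defs

-- ======== part 0: formerly Pool.Agent.MP_77bbd4_lc.Stat
section MrgPart0

set_option autoImplicit false

universe u

open Set Cardinal

namespace Pool.Agent.MP_77bbd4_lc

variable {X : Type u} [LinearOrder X]

/-- `F β n` depends only on `β k` for `k < n`. -/
def Causal (F : (ℕ → X) → ℕ → X) : Prop :=
  ∀ β β' : ℕ → X, ∀ n, (∀ k < n, β k = β' k) → F β n = F β' n

/-- A game form of stationarity in the points of countable cofinality. -/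
def Stat (S : Set X) : Prop :=
  ∀ F : (ℕ → X) → ℕ → X, Causal F →
    ∃ β : ℕ → X, (∀ n, F β n ≤ β n) ∧ ∃ δ ∈ S, IsLUB (range β) δ

theorem exists_isLUB [WellFoundedLT X] {s : Set X} (h : BddAbove s) : ∃ a, IsLUB s a :=
  ⟨wellFounded_lt.min (upperBounds s) h, wellFounded_lt.min_mem _ h,
    fun _ hb => not_lt.mp (wellFounded_lt.not_lt_min _ hb)⟩

omit [LinearOrder X] in
theorem exists_fixed [Nonempty X] (F : (ℕ → X) → ℕ → X) (hF : Causal F) :
    ∃ β : ℕ → X, ∀ n, β n = F β n := by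
  classical
  let x0 : X := Classical.arbitrary X
  let G : (n : ℕ) → ((k : ℕ) → k < n → X) → X :=
    fun n ih => F (fun k => if h : k < n then ih k h else x0) n
  let β : ℕ → X := (wellFounded_lt (α := ℕ)).fix G
  refine ⟨β, fun n => ?_⟩
  have h1 : β n = G n (fun k _ => β k) := (wellFounded_lt (α := ℕ)).fix_eq G n
  rw [h1]
  apply hF
  intro k hk
  simp [hk]

theorem stat_Ioi [WellFoundedLT X] (hb : ∀ β : ℕ → X, BddAbove (range β))
    (η b : X) (hηb : η < b) : Stat (Ioi η) := by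
  intro F hF
  have : Nonempty X := ⟨b⟩
  obtain ⟨β, hβ⟩ := exists_fixed (fun β n => max (F β n) b) (by
    intro β β' n h
    simp only [hF β β' n h])
  obtain ⟨δ, hδ⟩ := exists_isLUB (hb β)
  refine ⟨β, fun n => ?_, δ, ?_, hδ⟩
  · rw [hβ n]; exact le_max_left _ _
  · have : β 0 ≤ δ := hδ.1 ⟨0, rfl⟩
    rw [hβ 0] at this
    exact hηb.trans_le ((le_max_right _ _).trans this)

theorem stat_iUnion {ι : Type u} (hb : ∀ f : ι → X, BddAbove (range f)) (U : ι → Set X)
    (h : Stat (⋃ i, U i)) : ∃ i, Stat (U i) := by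
  classical
  by_contra hne
  push Not at hne
  simp only [Stat, not_forall, not_exists, not_and] at hne
  choose F hF hFU using hne
  choose ub hub using hb
  obtain ⟨β, hβ, δ, hδ, hlub⟩ := h (fun β n => ub (fun i => F i β n)) (by
    intro β β' n hk
    have : (fun i => F i β n) = (fun i => F i β' n) := funext fun i => hF i β β' n hk
    simp only [this])
  obtain ⟨i, hi⟩ := mem_iUnion.mp hδ
  exact hFU i β (fun n => (hub (fun i => F i β n) ⟨i, rfl⟩).trans (hβ n)) δ hi hlub

/-- Ulam matrix: many pairwise disjoint stationary sets. -/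
theorem exists_disjoint_stat [WellFoundedLT X] {M : Type u} [Infinite M]
    (hb : ∀ s : Set X, #s ≤ #M → ∃ b, ∀ x ∈ s, x < b)
    (hIio : ∀ x : X, #(Iio x) ≤ #M) :
    ∃ S : M → Set X, (∀ i, Stat (S i)) ∧ ∀ i j x, x ∈ S i → x ∈ S j → i = j := by
  classical
  have hM : ℵ₀ ≤ #M := aleph0_le_mk M
  have hX : #M < #X := by
    by_contra hle
    obtain ⟨b, hb'⟩ := hb univ (by simpa using not_lt.mp hle)
    exact lt_irrefl b (hb' b (mem_univ b))
  have hb1 : ∀ β : ℕ → X, BddAbove (range β) := by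
    intro β
    obtain ⟨b, hb'⟩ := hb (range β) (le_trans (le_aleph0_iff_set_countable.mpr
      (countable_range β)) hM)
    exact ⟨b, fun x hx => (hb' x hx).le⟩
  have hb2 : ∀ f : M → X, BddAbove (range f) := by
    intro f
    obtain ⟨b, hb'⟩ := hb (range f) mk_range_le
    exact ⟨b, fun x hx => (hb' x hx).le⟩
  have he : ∀ x : X, Nonempty (Iio x ↪ M) := fun x => (Cardinal.le_def _ _).mp (hIio x)
  let e : ∀ x : X, Iio x ↪ M := fun x => (he x).some
  let U : X → M → Set X := fun η i => {δ | ∃ h : η < δ, e δ ⟨η, h⟩ = i}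
  have hU : ∀ η, ∃ i, Stat (U η i) := by
    intro η
    apply stat_iUnion hb2
    have : (⋃ i, U η i) = Ioi η := by
      ext δ
      simp only [mem_iUnion, mem_Ioi, U, mem_ofPred_eq]
      exact ⟨fun ⟨_, h, _⟩ => h, fun h => ⟨_, h, rfl⟩⟩
    rw [this]
    obtain ⟨b, hb'⟩ := hb {η} (by simpa using (one_lt_aleph0.le.trans hM))
    exact stat_Ioi hb1 η b (hb' η rfl)
  choose g hg using hU
  obtain ⟨i, hi⟩ := infinite_pigeonhole_card_lt g hX (hM.trans hX.le)
  obtain ⟨f⟩ := (Cardinal.le_def _ _).mp hi.le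
  refine ⟨fun j => U (f j) i, fun j => ?_, ?_⟩
  · have h1 : g (f j) = i := (f j).2
    have h2 := hg (f j)
    rwa [h1] at h2
  · rintro j j' x ⟨h1, h2⟩ ⟨h3, h4⟩
    have h5 := (e x).injective (h2.trans h4.symm)
    apply f.injective
    apply Subtype.ext
    exact congrArg (fun y : Iio x => (y : X)) h5

end Pool.Agent.MP_77bbd4_lc

end MrgPart0

-- ======== part 1: formerly Pool.Agent.MP_77bbd4_lc.Poset
section MrgPart1

set_option autoImplicit false

universe u

open Set Cardinal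

namespace Pool.Agent.MP_77bbd4_lc

variable {X : Type u} [LinearOrder X]

/-- `δ` is a limit point of `c`. -/
def LimPt (c : Set X) (δ : X) : Prop :=
  (∃ y ∈ c, y < δ) ∧ ∀ γ < δ, ∃ x ∈ c, γ < x ∧ x < δ

theorem LimPt.congr {c d : Set X} {δ : X} (h : ∀ x < δ, (x ∈ c ↔ x ∈ d)) (hc : LimPt c δ) :
    LimPt d δ := by
  obtain ⟨⟨y, hy, hyδ⟩, h2⟩ := hc
  refine ⟨⟨y, (h y hyδ).mp hy, hyδ⟩, fun γ hγ => ?_⟩
  obtain ⟨x, hx, h3, h4⟩ := h2 γ hγ
  exact ⟨x, (h x h4).mp hx, h3, h4⟩

/-- Conditions: bounded sets with no limit point in `S`, ordered by end extension. -/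
@[ext]
structure Cond (S : Set X) where
  ht : X
  c : Set X
  sub : ∀ x ∈ c, x < ht
  nolim : ∀ δ ∈ S, δ ≤ ht → ¬ LimPt c δ

variable {S : Set X}

instance : PartialOrder (Cond S) where
  le q p := p.ht ≤ q.ht ∧ ∀ x < p.ht, (x ∈ q.c ↔ x ∈ p.c)
  le_refl p := ⟨le_rfl, fun _ _ => Iff.rfl⟩
  le_trans r q p h1 h2 := ⟨h2.1.trans h1.1, fun x hx =>
    (h1.2 x (hx.trans_le h2.1)).trans (h2.2 x hx)⟩
  le_antisymm p q h1 h2 := by
    have h : p.ht = q.ht := le_antisymm h2.1 h1.1
    apply Cond.ext h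
    ext x
    constructor
    · intro hx
      exact (h2.2 x (p.sub x hx)).mpr hx
    · intro hx
      exact (h1.2 x (q.sub x hx)).mpr hx

theorem Cond.le_def {p q : Cond S} :
    q ≤ p ↔ p.ht ≤ q.ht ∧ ∀ x < p.ht, (x ∈ q.c ↔ x ∈ p.c) := Iff.rfl

instance [OrderBot X] : OrderTop (Cond S) where
  top := ⟨⊥, ∅, by simp, by simp [LimPt]⟩
  le_top p := ⟨bot_le, fun x hx => absurd hx not_lt_bot⟩

/-- Add one point `β` on top of a condition. -/
def Cond.add (p : Cond S) (β b : X) (h1 : p.ht ≤ β) (h2 : β < b) : Cond S where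
  ht := b
  c := insert β p.c
  sub := by
    rintro x (rfl | hx)
    · exact h2
    · exact (p.sub x hx).trans (h1.trans_lt h2)
  nolim := by
    intro δ hδ _ hlim
    rcases le_or_gt δ p.ht with h | h
    · apply p.nolim δ hδ h
      apply hlim.congr
      intro x hx
      have : x ≠ β := (hx.trans_le (h.trans h1)).ne
      simp [this]
    · rcases lt_or_ge β δ with h' | h'
      · obtain ⟨x, hx, h3, -⟩ := hlim.2 β h'
        rcases hx with rfl | hx
        · exact lt_irrefl _ h3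
        · exact lt_irrefl _ (((p.sub x hx).trans_le h1).trans h3)
      · obtain ⟨x, hx, h3, h4⟩ := hlim.2 p.ht h
        rcases hx with rfl | hx
        · exact lt_irrefl _ (h4.trans_le h')
        · exact lt_irrefl _ ((p.sub x hx).trans h3)

theorem Cond.add_le (p : Cond S) (β b : X) (h1 : p.ht ≤ β) (h2 : β < b) :
    p.add β b h1 h2 ≤ p := by
  refine ⟨h1.trans h2.le, fun x hx => ?_⟩
  have : x ≠ β := (hx.trans_le h1).ne
  simp [Cond.add, this]

theorem Cond.mem_of_le {p q : Cond S} (h : q ≤ p) {x : X} (hx : x ∈ p.c) : x ∈ q.c :=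
  (h.2 x (p.sub x hx)).mpr hx

/-- The index of a finite ordinal. -/
noncomputable def natOf (γ : Ordinal.{u}) : ℕ := Cardinal.toNat γ.card

@[simp] theorem natOf_natCast (n : ℕ) : natOf (n : Ordinal.{u}) = n := by
  simp [natOf]

theorem exists_nat_of_lt {m : ℕ} {γ : Ordinal.{u}} (h : γ < m) : ∃ n : ℕ, γ = n ∧ n < m := by
  obtain ⟨n, rfl⟩ := Ordinal.lt_omega0.mp (h.trans (Ordinal.natCast_lt_omega0 m))
  exact ⟨n, rfl, by exact_mod_cast h⟩

theorem natOf_lt {m : ℕ} (γ : Iio (m : Ordinal.{u})) : natOf γ.1 < m := by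
  obtain ⟨n, h1, h2⟩ := exists_nat_of_lt γ.2
  rw [h1, natOf_natCast]
  exact h2

open Classical in
/-- The play in which COM follows `σ` and INC adds the point `β m` at the odd stage `m`. -/
noncomputable def play (nx : X → X) (hnx : ∀ x, x < nx x)
    (σ : (α : Ordinal.{u}) → (Iio α → Cond S) → Cond S) (β : ℕ → X) (m : ℕ) : Cond S :=
  if m % 2 = 0 then σ m (fun γ => play nx hnx σ β (natOf γ.1))
  else if h : (play nx hnx σ β (m - 1)).ht ≤ β m then
    (play nx hnx σ β (m - 1)).add (β m) (nx (β m)) h (hnx _)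
  else play nx hnx σ β (m - 1)
termination_by m
decreasing_by
  · exact natOf_lt γ
  all_goals omega

theorem play_congr (nx : X → X) (hnx : ∀ x, x < nx x)
    (σ : (α : Ordinal.{u}) → (Iio α → Cond S) → Cond S) (β β' : ℕ → X) (m : ℕ)
    (h : ∀ k, 0 < k → k ≤ m → β k = β' k) : play nx hnx σ β m = play nx hnx σ β' m := by
  induction m using Nat.strong_induction_on with
  | _ m ih =>
    rw [play.eq_1 nx hnx σ β m, play.eq_1 nx hnx σ β' m]
    by_cases hm : m % 2 = 0
    · rw [if_pos hm, if_pos hm]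
      congr 1
      funext γ
      exact ih _ (natOf_lt γ) (fun k h0 hk => h k h0 (hk.trans (natOf_lt γ).le))
    · rw [if_neg hm, if_neg hm]
      have e1 := ih (m - 1) (by omega) (fun k h0 hk => h k h0 (by omega))
      have e2 : β m = β' m := h m (by omega) le_rfl
      simp only [e1, e2]

theorem omega_mod_two : (Ordinal.omega0.{u}) % 2 = 0 := by
  rw [← Ordinal.dvd_iff_mod_eq_zero]
  exact ⟨Ordinal.omega0, (Ordinal.mul_omega0 (by simp) (by
    exact_mod_cast Ordinal.natCast_lt_omega0 2)).symm⟩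

theorem natCast_mod_two (m : ℕ) : ((m : Ordinal.{u}) % 2 = 0) ↔ m % 2 = 0 := by
  have := Ordinal.natCast_mod m 2
  simp only [Nat.cast_ofNat] at this
  rw [← this]
  exact_mod_cast Iff.rfl

theorem not_comWins [OrderBot X] [NoMaxOrder X] (hS : Stat S) (δ : Ordinal.{u})
    (hδ : Ordinal.omega0 < δ) : ¬ ComWins (Cond S) δ := by
  classical
  rintro ⟨σ, hσ⟩
  choose nx hnx using (exists_gt : ∀ x : X, ∃ y, x < y)
  obtain ⟨β, hβ, d, hdS, hd⟩ := hS
    (fun β n => if n = 0 then ⊥ else nx (max (play nx hnx σ β (n - 1)).ht (β (n - 1)))) (by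
      intro β β' n h
      by_cases hn : n = 0
      · simp [hn]
      · simp only [if_neg hn]
        rw [play_congr nx hnx σ β β' (n - 1) (fun k _ hk => h k (by omega)), h (n - 1) (by omega)])
  have hβ1 : ∀ n, (play nx hnx σ β n).ht < β (n + 1) := fun n => by
    have := hβ (n + 1)
    simp only [Nat.add_one_ne_zero, if_false, Nat.add_sub_cancel] at this
    exact ((le_max_left _ _).trans_lt (hnx _)).trans_le this
  have hβ2 : ∀ n, β n < β (n + 1) := fun n => by
    have := hβ (n + 1)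
    simp only [Nat.add_one_ne_zero, if_false, Nat.add_sub_cancel] at this
    exact ((le_max_right _ _).trans_lt (hnx _)).trans_le this
  let s : Ordinal.{u} → Cond S := fun γ => play nx hnx σ β (natOf γ)
  have hs : ∀ n : ℕ, s n = play nx hnx σ β n := fun n => by simp [s]
  have hodd : ∀ n : ℕ, (n + 1) % 2 ≠ 0 → play nx hnx σ β (n + 1) =
      (play nx hnx σ β n).add (β (n + 1)) (nx (β (n + 1))) (hβ1 n).le (hnx _) := by
    intro n hn
    rw [play, if_neg hn, dif_pos (by simpa using (hβ1 n).le)]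
    simp
  have hfol : ∀ m : ℕ, (m : Ordinal.{u}) % 2 = 0 → s m = σ m (fun γ => s γ) := by
    intro m hm
    rw [hs, play, if_pos ((natCast_mod_two m).mp hm)]
  have hleg : ∀ m : ℕ, LegalMove s m (s m) := by
    intro m
    induction m using Nat.strong_induction_on with
    | _ m ih =>
      by_cases hm : m % 2 = 0
      · have hm' := (natCast_mod_two.{u} m).mpr hm
        rw [hfol m hm']
        apply hσ m ((Ordinal.natCast_lt_omega0 m).trans hδ) hm' s
        · intro γ hγ
          obtain ⟨n, rfl, hn⟩ := exists_nat_of_lt hγ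
          exact ih n hn
        · intro γ hγ
          obtain ⟨n, rfl, hn⟩ := exists_nat_of_lt hγ
          exact hfol n
      · obtain ⟨n, rfl⟩ : ∃ n, m = n + 1 := ⟨m - 1, by omega⟩
        refine ⟨fun h => ?_, fun γ hγ => ?_⟩
        · exact absurd h (by exact_mod_cast Nat.add_one_ne_zero n)
        · obtain ⟨k, rfl, hk⟩ := exists_nat_of_lt hγ
          have h1 : s ((n + 1 : ℕ) : Ordinal.{u}) ≤ s n := by
            rw [hs, hs, hodd n hm]
            exact Cond.add_le _ _ _ _ _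
          rcases Nat.lt_succ_iff_lt_or_eq.mp hk with h | h
          · exact h1.trans ((ih n (Nat.lt_succ_self n)).2 k (by exact_mod_cast h))
          · rw [h]; exact h1
  have hfin := hσ Ordinal.omega0 hδ omega_mod_two s
    (fun γ hγ => by
      obtain ⟨n, rfl⟩ := Ordinal.lt_omega0.mp hγ
      exact hleg n)
    (fun γ hγ => by
      obtain ⟨n, rfl⟩ := Ordinal.lt_omega0.mp hγ
      exact hfol n)
  set q := σ Ordinal.omega0 (fun γ => s γ) with hq
  have hqle : ∀ n : ℕ, q ≤ play nx hnx σ β n := fun n => by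
    rw [← hs]
    exact hfin.2 n (Ordinal.natCast_lt_omega0 n)
  have hmem : ∀ k : ℕ, β (2 * k + 1) ∈ q.c := fun k => by
    apply Cond.mem_of_le (hqle (2 * k + 1))
    rw [hodd (2 * k) (by omega)]
    exact mem_insert _ _
  have hmono : StrictMono β := strictMono_nat_of_lt_succ hβ2
  have hlt : ∀ n, β n < d := fun n => (hβ2 n).trans_le (hd.1 ⟨n + 1, rfl⟩)
  have hdq : d ≤ q.ht := by
    apply hd.2
    rintro _ ⟨n, rfl⟩
    exact (hmono.monotone (by omega : n ≤ 2 * n + 1)).trans (q.sub _ (hmem n)).le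
  apply q.nolim d hdS hdq
  refine ⟨⟨_, hmem 0, hlt _⟩, fun γ hγ => ?_⟩
  obtain ⟨_, ⟨n, rfl⟩, hn⟩ := (lt_isLUB_iff hd).mp hγ
  exact ⟨_, hmem n, hn.trans_le (hmono.monotone (by omega : n ≤ 2 * n + 1)), hlt _⟩

end Pool.Agent.MP_77bbd4_lc

end MrgPart1

-- ======== part 2: formerly Pool.Agent.MP_77bbd4_lc.Distrib
section MrgPart2

set_option autoImplicit false

universe u

open Set Cardinal

namespace Pool.Agent.MP_77bbd4_lc

variable {X : Type u} [LinearOrder X]

/-- The union of a chain of conditions whose heights converge to a point outside `S`. -/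
theorem exists_lower_bound {S : Set X} {ι : Type u} (p : ι → Cond S)
    (hch : ∀ i j, p i ≤ p j ∨ p j ≤ p i) (d : X) (hd : d ∉ S) (h1 : ∀ i, (p i).ht ≤ d)
    (h2 : ∀ x < d, ∃ i, x ≤ (p i).ht) : ∃ q : Cond S, ∀ i, q ≤ p i := by
  have key : ∀ i, ∀ x < (p i).ht, (x ∈ ⋃ j, (p j).c ↔ x ∈ (p i).c) := by
    intro i x hx
    constructor
    · intro h
      obtain ⟨j, hj⟩ := mem_iUnion.mp h
      rcases hch i j with h' | h'
      · exact Cond.mem_of_le h' hj
      · exact (h'.2 x hx).mp hj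
    · intro h
      exact mem_iUnion.mpr ⟨i, h⟩
  refine ⟨⟨d, ⋃ j, (p j).c, ?_, ?_⟩, fun i => ⟨h1 i, key i⟩⟩
  · intro x hx
    obtain ⟨j, hj⟩ := mem_iUnion.mp hx
    exact ((p j).sub x hj).trans_le (h1 j)
  · intro δ hδ hle hlim
    have hlt : δ < d := lt_of_le_of_ne hle (fun h => hd (h ▸ hδ))
    obtain ⟨i, hi⟩ := h2 δ hlt
    exact (p i).nolim δ hδ hi (hlim.congr (fun x hx => key i x (hx.trans_le hi)))

theorem exists_distrib [WellFoundedLT X] {M K : Type u} [LinearOrder K] [WellFoundedLT K]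
    [Infinite M] (hb : ∀ s : Set X, #s ≤ #M → ∃ b, ∀ x ∈ s, x < b) (hK : #K < #M)
    (S : M → Set X) (hdisj : ∀ i j x, x ∈ S i → x ∈ S j → i = j) :
    ∃ ξ, ∀ D : K → Set (Cond (S ξ)), (∀ k, IsOpenDense (D k)) → ∀ p : Cond (S ξ),
      ∃ s : K → Cond (S ξ), (∀ k, s k ≤ p) ∧ (∀ k, s k ∈ D k) ∧ ∀ k j, j < k → s k ≤ s j := by
  classical
  by_contra hne
  simp only [not_exists, not_forall] at hne
  choose D hD p0 hno using hne
  have hM : ℵ₀ ≤ #M := aleph0_le_mk M
  have hnx : ∀ x : X, ∃ y, x < y := fun x => by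
    obtain ⟨b, hb'⟩ := hb {x} (by simpa using (one_lt_aleph0.le.trans hM))
    exact ⟨b, hb' x rfl⟩
  have : Nonempty X := ⟨(p0 (Classical.arbitrary M)).ht⟩
  have hne : ∀ ξ, Nonempty (Cond (S ξ)) := fun ξ => ⟨p0 ξ⟩
  let G : (k : K) → ((j : K) → j < k → ∀ ξ, Cond (S ξ)) → ∀ ξ, Cond (S ξ) :=
    fun k ih ξ => Classical.epsilon (fun r : Cond (S ξ) =>
      r ∈ D ξ k ∧ r ≤ p0 ξ ∧ (∀ j (h : j < k), r ≤ ih j h ξ) ∧
        Classical.epsilon (IsLUB {x | (∃ ζ, x = (p0 ζ).ht) ∨
          ∃ j, ∃ h : j < k, ∃ ζ, x = (ih j h ζ).ht}) < r.ht)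
  let p : K → ∀ ξ, Cond (S ξ) := (wellFounded_lt (α := K)).fix G
  let B : K → Set X := fun k => {x | (∃ ζ, x = (p0 ζ).ht) ∨
    ∃ j, ∃ _ : j < k, ∃ ζ, x = (p j ζ).ht}
  let d : K → X := fun k => Classical.epsilon (IsLUB (B k))
  let Good : (k : K) → (ξ : M) → Cond (S ξ) → Prop := fun k ξ r =>
    r ∈ D ξ k ∧ r ≤ p0 ξ ∧ (∀ j (_ : j < k), r ≤ p j ξ) ∧ d k < r.ht
  have hp : ∀ k ξ, (∃ r, Good k ξ r) → Good k ξ (p k ξ) := by
    intro k ξ h
    have h1 : p k = G k (fun j _ => p j) := (wellFounded_lt (α := K)).fix_eq G k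
    have h2 : p k ξ = Classical.epsilon (Good k ξ) := congrFun h1 ξ
    rw [h2]
    exact Classical.epsilon_spec h
  have hd : ∀ k, IsLUB (B k) (d k) := by
    intro k
    apply Classical.epsilon_spec (p := IsLUB (B k))
    apply exists_isLUB
    have hsub : B k ⊆ range (fun z : M ⊕ (K × M) =>
        Sum.elim (fun ζ => (p0 ζ).ht) (fun y : K × M => (p y.1 y.2).ht) z) := by
      rintro x (⟨ζ, rfl⟩ | ⟨j, -, ζ, rfl⟩)
      · exact ⟨Sum.inl ζ, rfl⟩
      · exact ⟨Sum.inr (j, ζ), rfl⟩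
    have hcard : #(B k) ≤ #M := by
      refine (mk_le_mk_of_subset hsub).trans (mk_range_le.trans ?_)
      simp only [mk_sum, mk_prod, lift_id]
      apply add_le_of_le hM le_rfl
      exact mul_le_of_le hM hK.le le_rfl
    obtain ⟨b, hb'⟩ := hb _ hcard
    exact ⟨b, fun x hx => (hb' x hx).le⟩
  have hξ : ∃ ξ, ∀ k, d k ∉ S ξ := by
    by_contra h
    simp only [not_exists, not_forall, not_not] at h
    choose f hf using h
    have hinj : Function.Injective f := fun i j hij =>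
      hdisj i j (d (f i)) (hf i) (hij ▸ hf j)
    exact (mk_le_of_injective hinj).not_gt hK
  obtain ⟨ξ, hξ⟩ := hξ
  have hgood : ∀ k, Good k ξ (p k ξ) := by
    intro k
    induction k using (wellFounded_lt (α := K)).induction with
    | _ k ih =>
      apply hp
      have hq : ∃ q : Cond (S ξ), q ≤ p0 ξ ∧ ∀ j < k, q ≤ p j ξ := by
        by_cases h0 : ∃ j, j < k
        · by_cases hmax : ∃ j < k, ∀ i < k, i ≤ j
          · obtain ⟨j, hj, hmax⟩ := hmax
            refine ⟨p j ξ, (ih j hj).2.1, fun i hi => ?_⟩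
            rcases (hmax i hi).lt_or_eq with h | h
            · exact (ih j hj).2.2.1 i h
            · rw [h]
          · simp only [not_exists, not_and, not_forall, not_le] at hmax
            obtain ⟨j0, hj0⟩ := h0
            obtain ⟨q, hq⟩ := exists_lower_bound (S := S ξ) (fun j : Iio k => p j ξ)
              (fun i j => by
                rcases lt_trichotomy i.1 j.1 with h | h | h
                · exact Or.inr ((ih j j.2).2.2.1 i h)
                · left; rw [h]
                · exact Or.inl ((ih i i.2).2.2.1 j h))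
              (d k) (hξ k)
              (fun j => (hd k).1 (Or.inr ⟨j, j.2, ξ, rfl⟩))
              (fun x hx => by
                obtain ⟨y, hy, hxy⟩ := (lt_isLUB_iff (hd k)).mp hx
                rcases hy with ⟨ζ, rfl⟩ | ⟨j, hj, ζ, rfl⟩
                · refine ⟨⟨j0, hj0⟩, ?_⟩
                  have h1 : (p0 ζ).ht ≤ d j0 := (hd j0).1 (Or.inl ⟨ζ, rfl⟩)
                  exact (hxy.le.trans h1).trans (ih j0 hj0).2.2.2.le
                · obtain ⟨i, hi, hji⟩ := hmax j hj
                  refine ⟨⟨i, hi⟩, ?_⟩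
                  have h1 : (p j ζ).ht ≤ d i := (hd i).1 (Or.inr ⟨j, hji, ζ, rfl⟩)
                  exact (hxy.le.trans h1).trans (ih i hi).2.2.2.le)
            exact ⟨q, (hq ⟨j0, hj0⟩).trans (ih j0 hj0).2.1, fun j hj => hq ⟨j, hj⟩⟩
        · exact ⟨p0 ξ, le_rfl, fun j hj => absurd ⟨j, hj⟩ h0⟩
      obtain ⟨q, hq0, hq⟩ := hq
      obtain ⟨b, hb'⟩ := hnx (max q.ht (d k))
      let q' := q.add (max q.ht (d k)) b (le_max_left _ _) hb'
      have hq' : q' ≤ q := Cond.add_le _ _ _ _ _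
      obtain ⟨r, hr, hrq⟩ := (hD ξ k).2 q'
      refine ⟨r, hr, hrq.trans (hq'.trans hq0), fun j hj => hrq.trans (hq'.trans (hq j hj)), ?_⟩
      exact ((le_max_right _ _).trans_lt hb').trans_le hrq.1
  exact hno ξ (fun k => p k ξ)
    ⟨fun k => (hgood k).2.1, fun k => (hgood k).1, fun k j h => (hgood k).2.2.1 j h⟩

theorem main (κ : Cardinal.{u}) :
    ∃ (P : Type u) (_ : PartialOrder P) (_ : OrderTop P),
      StronglyDistributive P κ ∧ ∀ δ : Ordinal.{u}, Ordinal.omega0 < δ → ¬ ComWins P δ := by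
  classical
  let μ : Cardinal.{u} := Order.succ (max κ ℵ₀)
  have hμ : ℵ₀ ≤ μ := (le_max_right _ _).trans (Order.le_succ _)
  let X : Type u := (Order.succ μ).ord.ToType
  let M : Type u := μ.out
  let K : Type u := κ.ord.ToType
  have hMμ : #M = μ := mk_out μ
  have : Infinite M := by
    rw [infinite_iff, hMμ]; exact hμ
  have hb : ∀ s : Set X, #s ≤ #M → ∃ b, ∀ x ∈ s, x < b := by
    intro s hs
    by_contra h
    have hcof : IsCofinal s := by
      intro a
      by_contra h'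
      apply h
      refine ⟨a, fun x hx => ?_⟩
      by_contra h''
      exact h' ⟨x, hx, not_lt.mp h''⟩
    have h1 := Order.cof_le hcof
    rw [Ordinal.cof_toType, (isRegular_succ hμ).cof_ord] at h1
    exact (Order.lt_succ μ).not_ge (h1.trans (hs.trans hMμ.le))
  have hIio : ∀ x : X, #(Iio x) ≤ #M := fun x => by
    rw [hMμ]
    exact Order.lt_succ_iff.mp (mk_Iio_toType_ord_lt x)
  have hK : #K < #M := by
    rw [hMμ, mk_ord_toType]
    exact (le_max_left _ _).trans_lt (Order.lt_succ _)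
  obtain ⟨S, hS, hdisj⟩ := exists_disjoint_stat hb hIio
  obtain ⟨ξ, hξ⟩ := exists_distrib hb hK S hdisj
  have hneX : Nonempty X := by
    obtain ⟨b, -⟩ := hb ∅ (by simp)
    exact ⟨b⟩
  letI : OrderBot X := WellFoundedLT.toOrderBot X
  have : NoMaxOrder X := ⟨fun x => by
    obtain ⟨b, hb'⟩ := hb {x} (by
      rw [hMμ]
      simpa using (one_lt_aleph0.le.trans hμ))
    exact ⟨b, hb' x rfl⟩⟩
  refine ⟨Cond (S ξ), inferInstance, inferInstance, ?_, fun δ hδ => not_comWins (hS ξ) δ hδ⟩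
  intro D hD p
  let e : Iio κ.ord ≃o K := Ordinal.ToType.mk
  obtain ⟨s, h1, h2, h3⟩ := hξ (fun k => D (e.symm k).1) (fun k => hD _ (e.symm k).2) p
  refine ⟨fun α => if h : α < κ.ord then s (e ⟨α, h⟩) else p, ?_, ?_, ?_⟩
  · by_cases h : 0 < κ.ord
    · simp only [dif_pos h]; exact h1 _
    · simp only [dif_neg h]; exact le_rfl
  · intro α hα
    simp only [dif_pos hα]
    simpa using h2 (e ⟨α, hα⟩)
  · intro β hβ α hα
    simp only [dif_pos hβ, dif_pos (hα.trans hβ)]
    exact h3 _ _ (e.strictMono hα)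

end Pool.Agent.MP_77bbd4_lc

end MrgPart2

-- marker of a merged file
example : 731051 + 105983 = 731051 + 105983 := rfl
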